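import Pool.Agent.Helper87.TB.St

/-!
# Project TB, module MM: the Moon-Moser inequality
-/

set_option autoImplicit false

noncomputable section

namespace Pool.Agent.Helper57.TB

open Finset
open scoped Classical
open Pool.Agent.Helper87.TB

variable {n : ℕ}

/-- the vertices extending `S` to a `(j+1)`-clique -/
def ext (G : SimpleGraph (Fin n)) (j : ℕ) (S : Finset (Fin n)) : Finset (Fin n) :=
  univ.filter (fun v => v ∉ S ∧ insert v S ∈ G.cliqueFinset (j + 1))

theorem mem_ext {G : SimpleGraph (Fin n)} {j : ℕ} {S : Finset (Fin n)} {v : Fin n} :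
    v ∈ ext G j S ↔ v ∉ S ∧ insert v S ∈ G.cliqueFinset (j + 1) := by
  simp [ext]

theorem erase_mem {G : SimpleGraph (Fin n)} {j : ℕ} {T : Finset (Fin n)} {t : Fin n}
    (hT : T ∈ G.cliqueFinset (j + 1)) (ht : t ∈ T) : T.erase t ∈ G.cliqueFinset j := by
  rw [SimpleGraph.mem_cliqueFinset_iff] at hT ⊢
  have := hT.erase_of_mem ht
  simpa using this

/-- double counting of pairs (clique, extension) -/
theorem double (G : SimpleGraph (Fin n)) (j : ℕ) (f : Finset (Fin n) → ℕ) :
    ∑ S ∈ G.cliqueFinset j, ∑ _v ∈ ext G j S, f S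
      = ∑ T ∈ G.cliqueFinset (j + 1), ∑ t ∈ T, f (T.erase t) := by
  rw [Finset.sum_sigma', Finset.sum_sigma']
  refine Finset.sum_bij' (fun p _ => ⟨insert p.2 p.1, p.2⟩) (fun q _ => ⟨q.1.erase q.2, q.2⟩)
    ?_ ?_ ?_ ?_ ?_
  · rintro ⟨S, v⟩ h
    simp only [Finset.mem_sigma] at h ⊢
    exact ⟨(mem_ext.1 h.2).2, Finset.mem_insert_self _ _⟩
  · rintro ⟨T, t⟩ h
    simp only [Finset.mem_sigma] at h ⊢
    refine ⟨erase_mem h.1 h.2, mem_ext.2 ⟨Finset.notMem_erase _ _, ?_⟩⟩
    rw [Finset.insert_erase h.2]
    exact h.1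
  · rintro ⟨S, v⟩ h
    simp only [Finset.mem_sigma] at h
    have := (mem_ext.1 h.2).1
    simp [Finset.erase_insert this]
  · rintro ⟨T, t⟩ h
    simp only [Finset.mem_sigma] at h
    simp [Finset.insert_erase h.2]
  · rintro ⟨S, v⟩ h
    simp only [Finset.mem_sigma] at h
    have := (mem_ext.1 h.2).1
    simp [Finset.erase_insert this]

theorem sum_ext (G : SimpleGraph (Fin n)) (j : ℕ) :
    ∑ S ∈ G.cliqueFinset j, (ext G j S).card = (j + 1) * (G.cliqueFinset (j + 1)).card := by
  have h := double G j (fun _ => 1)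
  simp only [Finset.sum_const, smul_eq_mul, mul_one] at h
  rw [h, mul_comm, ← smul_eq_mul, ← Finset.sum_const]
  refine Finset.sum_congr rfl fun T hT => ?_
  rw [SimpleGraph.mem_cliqueFinset_iff] at hT
  exact hT.2

/-- the local inequality -/
theorem loc (G : SimpleGraph (Fin n)) (j : ℕ) {T : Finset (Fin n)}
    (hT : T ∈ G.cliqueFinset (j + 1)) :
    ∑ t ∈ T, (ext G j (T.erase t)).card ≤ j * (ext G (j + 1) T).card + n := by
  have hTc := (SimpleGraph.mem_cliqueFinset_iff.1 hT).2
  have hTq := (SimpleGraph.mem_cliqueFinset_iff.1 hT).1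
  have h1 : ∑ t ∈ T, (ext G j (T.erase t)).card
      = ∑ v : Fin n, (T.filter (fun t => v ∈ ext G j (T.erase t))).card := by
    simp only [Finset.card_filter, ext]
    rw [Finset.sum_comm]
    simp
  rw [h1]
  have h2 : ∀ v : Fin n, (T.filter (fun t => v ∈ ext G j (T.erase t))).card
      ≤ (if v ∈ ext G (j + 1) T then j else 0) + 1 := by
    intro v
    by_cases hv : v ∈ ext G (j + 1) T
    · rw [if_pos hv]
      exact (Finset.card_filter_le _ _).trans (le_of_eq hTc)
    · rw [if_neg hv, zero_add]
      rw [Finset.card_le_one]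
      by_cases hvT : v ∈ T
      · intro a ha b hb
        rw [Finset.mem_filter] at ha hb
        have h3 := (mem_ext.1 ha.2).1
        have h4 := (mem_ext.1 hb.2).1
        have h5 : v = a := by
          by_contra hne
          exact h3 (Finset.mem_erase.2 ⟨hne, hvT⟩)
        have h6 : v = b := by
          by_contra hne
          exact h4 (Finset.mem_erase.2 ⟨hne, hvT⟩)
        rw [← h5, ← h6]
      · -- some vertex of `T` is not adjacent to `v`
        have h3 : ∃ w ∈ T, ¬ G.Adj v w := by
          by_contra hcon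
          push Not at hcon
          refine hv (mem_ext.2 ⟨hvT, ?_⟩)
          rw [SimpleGraph.mem_cliqueFinset_iff]
          exact (SimpleGraph.mem_cliqueFinset_iff.1 hT).insert hcon
        obtain ⟨w, hwT, hw⟩ := h3
        have key : ∀ a ∈ T.filter (fun t => v ∈ ext G j (T.erase t)), a = w := by
          intro a ha
          rw [Finset.mem_filter] at ha
          by_contra hne
          have h4 := (mem_ext.1 ha.2).2
          rw [SimpleGraph.mem_cliqueFinset_iff] at h4
          have h5 := h4.1
          have hvw : v ≠ w := fun h => hvT (h ▸ hwT)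
          exact hw (h5 (by simp) (by
            simp only [Finset.coe_insert, Set.mem_insert_iff, Finset.mem_coe, Finset.mem_erase]
            exact Or.inr ⟨fun h => hne h.symm, hwT⟩) hvw)
        intro a ha b hb
        rw [key a ha, key b hb]
  refine (Finset.sum_le_sum fun v _ => h2 v).trans ?_
  rw [Finset.sum_add_distrib]
  simp only [Finset.sum_const, Finset.card_univ, Fintype.card_fin, smul_eq_mul, mul_one]
  refine Nat.add_le_add_right ?_ _
  rw [← Finset.sum_filter, Finset.sum_const, smul_eq_mul, mul_comm]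
  refine Nat.mul_le_mul_left _ (Finset.card_le_card ?_)
  intro v hv
  exact (Finset.mem_filter.1 hv).2

theorem aMM : StMM := by
  intro n G j
  have h1 := sum_ext G j
  have h2 := sum_ext G (j + 1)
  have h3 : ∑ S ∈ G.cliqueFinset j, (ext G j S).card ^ 2
      ≤ j * (j + 2) * (G.cliqueFinset (j + 2)).card + n * (G.cliqueFinset (j + 1)).card := by
    have h4 := double G j (fun S => (ext G j S).card)
    simp only [Finset.sum_const, smul_eq_mul] at h4
    calc ∑ S ∈ G.cliqueFinset j, (ext G j S).card ^ 2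
        = ∑ S ∈ G.cliqueFinset j, (ext G j S).card * (ext G j S).card := by
          simp only [sq]
      _ = ∑ T ∈ G.cliqueFinset (j + 1), ∑ t ∈ T, (ext G j (T.erase t)).card := h4
      _ ≤ ∑ T ∈ G.cliqueFinset (j + 1), (j * (ext G (j + 1) T).card + n) :=
          Finset.sum_le_sum fun T hT => loc G j hT
      _ = j * ∑ T ∈ G.cliqueFinset (j + 1), (ext G (j + 1) T).card
            + n * (G.cliqueFinset (j + 1)).card := by
          rw [Finset.sum_add_distrib, ← Finset.mul_sum, Finset.sum_const, smul_eq_mul]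
          ring
      _ = j * (j + 2) * (G.cliqueFinset (j + 2)).card + n * (G.cliqueFinset (j + 1)).card := by
          rw [h2]
          ring
  calc (j + 1) ^ 2 * (G.cliqueFinset (j + 1)).card ^ 2
      = (∑ S ∈ G.cliqueFinset j, (ext G j S).card) ^ 2 := by
        rw [h1]
        ring
    _ ≤ (G.cliqueFinset j).card * ∑ S ∈ G.cliqueFinset j, (ext G j S).card ^ 2 :=
        sq_sum_le_card_mul_sum_sq
    _ ≤ _ := Nat.mul_le_mul_left _ h3

end Pool.Agent.Helper57.TB

end
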